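import Pool.Agent.MP_9fd5aa_lc.Mg.Loc

/-! Exact values of the additivity and the cofinality of every Yorioka ideal. -/

namespace Pool.Agent.Results.MP_9fd5aa_lc.Formula

open Pool.Agent.MP_9fd5aa_lc

theorem result : ∀ f : ℕ → ℕ, StrictMono f →
    addI (yorioka f) = min (bnum evle) (bnum (locB (fun n => 2 ^ f n) id)) ∧
    cofI (yorioka f) = max (dnum evle) (dnum (locB (fun n => 2 ^ f n) id)) :=
  fun _ hf => ⟨add_formula hf, cof_formula hf⟩

end Pool.Agent.Results.MP_9fd5aa_lc.Formula
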